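import Mathlib
import Pool.Agent.Helper133.Alg

/-!
# Every element of the corona has a character value

For the algebras `A β` of `Pool/Agent/Helper133/Alg.lean` and every multiplier `x` there is a
complex number `l` such that `(x - l) b + (x* - conj l) c - 1` is not in `A β` for all multipliers
`b`, `c`.
-/

set_option autoImplicit false

open Set Metric Topology TopologicalSpace Filter
open scoped InnerProductSpace BoundedContinuousFunction MultiplierAlgebra

set_option linter.unusedSectionVars false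

namespace Pool.Agent.Y852.AC

open Pool.Agent.Helper133 Pool.Agent.Helper133.Alg

variable {X : Type} [TopologicalSpace X] [CompactSpace X]
variable {H : Type} [NormedAddCommGroup H] [InnerProductSpace ℂ H] [CompleteSpace H]
variable {U : Type} {β : U → C(X, H)}

open Kill (Approx)

/-- the vector of a multiplier at the point `(n, t)` -/
noncomputable def vec (β : U → C(X, H)) (u0 : U) (e : H) (n : ℕ) (t : X) (y : 𝓜(ℂ, A β)) : H :=
  ((y.fst (g β n 1 u0 u0) : A β) : D X H) (n, t) e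

variable {u0 : U} {e : H}

lemma vec_add (n : ℕ) (t : X) (y z : 𝓜(ℂ, A β)) :
    vec β u0 e n t (y + z) = vec β u0 e n t y + vec β u0 e n t z := rfl

lemma vec_sub (n : ℕ) (t : X) (y z : 𝓜(ℂ, A β)) :
    vec β u0 e n t (y - z) = vec β u0 e n t y - vec β u0 e n t z := rfl

lemma vec_smul (n : ℕ) (t : X) (c : ℂ) (y : 𝓜(ℂ, A β)) :
    vec β u0 e n t (c • y) = c • vec β u0 e n t y := rfl

lemma vec_one (n : ℕ) (t : X) (he : ‖e‖ = 1) (h0 : ∀ t, β u0 t = e) :
    vec β u0 e n t 1 = e := p_apply n he h0 t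

/-- the functional of the point `(n, t)` -/
noncomputable def fn (β : U → C(X, H)) (u0 : U) (e : H) (n : ℕ) (t : X) (y : 𝓜(ℂ, A β)) : ℂ :=
  ⟪e, vec β u0 e n t y⟫_ℂ

lemma inner_vec (he : ‖e‖ = 1) (h0 : ∀ t, β u0 t = e) (n : ℕ) (t : X) (y z : 𝓜(ℂ, A β)) :
    ⟪vec β u0 e n t y, vec β u0 e n t z⟫_ℂ = fn β u0 e n t (star y * z) := by
  set p : A β := g β n 1 u0 u0 with hp
  have pe : ∀ t, (p : D X H) (n, t) e = e := fun t => p_apply n he h0 t
  have ps : star p = p := p_star n u0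
  have pein : ∀ (v : H), ⟪e, (p : D X H) (n, t) v⟫_ℂ = ⟪e, v⟫_ℂ := by
    intro v
    have h := coe_star_inner p (n, t) e v
    rw [ps] at h
    rw [h, pe]
  have h1 : (star y).snd p * z.fst p = p * (star y).fst (z.fst p) := (star y).central _ _
  have h2 : (star y).snd p = star (y.fst p) := by
    show star (y.fst (star p)) = _
    rw [ps]
  rw [h2] at h1
  have h3 := congrArg (fun a : A β => ⟪e, (a : D X H) (n, t) e⟫_ℂ) h1
  simp only [coe_mul_apply, coe_star_inner, pein] at h3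
  exact h3

lemma norm_p (he : ‖e‖ = 1) (h0 : ∀ t, β u0 t = e) (n : ℕ) : ‖g β n 1 u0 u0‖ ≤ 1 := by
  have h1 := CStarRing.norm_star_mul_self (x := g β n 1 u0 u0)
  rw [p_star, p_mul n he h0] at h1
  by_contra hcon
  push Not at hcon
  nlinarith

lemma norm_vec (he : ‖e‖ = 1) (h0 : ∀ t, β u0 t = e) (n : ℕ) (t : X) (y : 𝓜(ℂ, A β)) :
    ‖vec β u0 e n t y‖ ≤ ‖y.fst‖ := by
  have h1 : ‖vec β u0 e n t y‖ ≤ ‖((y.fst (g β n 1 u0 u0) : A β) : D X H) (n, t)‖ * ‖e‖ :=
    ContinuousLinearMap.le_opNorm _ _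
  have h2 : ‖((y.fst (g β n 1 u0 u0) : A β) : D X H) (n, t)‖ ≤ ‖y.fst (g β n 1 u0 u0)‖ :=
    BoundedContinuousFunction.norm_coe_le_norm _ _
  have h3 : ‖y.fst (g β n 1 u0 u0)‖ ≤ ‖y.fst‖ * ‖g β n 1 u0 u0‖ :=
    ContinuousLinearMap.le_opNorm _ _
  have h4 := norm_p he h0 n
  have h5 := norm_nonneg y.fst
  rw [he, mul_one] at h1
  nlinarith

lemma norm_fn (he : ‖e‖ = 1) (h0 : ∀ t, β u0 t = e) (n : ℕ) (t : X) (y : 𝓜(ℂ, A β)) :
    ‖fn β u0 e n t y‖ ≤ ‖y.fst‖ := by
  refine (norm_inner_le_norm _ _).trans ?_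
  rw [he, one_mul]
  exact norm_vec he h0 n t y

lemma fn_star (he : ‖e‖ = 1) (h0 : ∀ t, β u0 t = e) (n : ℕ) (t : X) (y : 𝓜(ℂ, A β)) :
    fn β u0 e n t (star y) = (starRingEnd ℂ) (fn β u0 e n t y) := by
  have h1 := inner_vec he h0 n t y 1
  rw [mul_one, vec_one n t he h0] at h1
  rw [← h1, fn, inner_conj_symm]

/-- product formula up to an error -/
lemma fn_mul (he : ‖e‖ = 1) (h0 : ∀ t, β u0 t = e) (n : ℕ) (t : X) (y z : 𝓜(ℂ, A β)) {δ : ℝ}
    (hδ : ‖vec β u0 e n t (star y) - fn β u0 e n t (star y) • e‖ ≤ δ) :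
    ‖fn β u0 e n t (y * z) - fn β u0 e n t y * fn β u0 e n t z‖ ≤ δ * ‖z.fst‖ := by
  have h1 := inner_vec he h0 n t (star y) z
  rw [star_star] at h1
  have h2 : fn β u0 e n t y = (starRingEnd ℂ) (fn β u0 e n t (star y)) := by
    rw [← fn_star he h0, star_star]
  have h3 : fn β u0 e n t (y * z) - fn β u0 e n t y * fn β u0 e n t z =
      ⟪vec β u0 e n t (star y) - fn β u0 e n t (star y) • e, vec β u0 e n t z⟫_ℂ := by
    rw [inner_sub_left, inner_smul_left, h1, h2]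
    rfl
  rw [h3]
  refine (norm_inner_le_norm _ _).trans ?_
  exact mul_le_mul hδ (norm_vec he h0 n t z) (norm_nonneg _) ((norm_nonneg _).trans hδ)

lemma fn_coe (he : ‖e‖ = 1) (a : A β) {δ : ℝ} (hδ : 0 < δ) :
    ∃ N : ℕ, ∀ n ≥ N, ∀ t, ‖fn β u0 e n t (a : 𝓜(ℂ, A β))‖ ≤
      δ * ‖g β n 1 u0 u0‖ := by
  obtain ⟨N, hN⟩ := vanish_A a hδ
  refine ⟨N, fun n hn t => ?_⟩
  have h1 : vec β u0 e n t (a : 𝓜(ℂ, A β)) =
      (a : D X H) (n, t) (((g β n 1 u0 u0 : A β) : D X H) (n, t) e) := rfl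
  refine (norm_inner_le_norm _ _).trans ?_
  rw [he, one_mul, h1]
  refine (ContinuousLinearMap.le_opNorm _ _).trans ?_
  refine mul_le_mul (hN n hn t) ?_ (norm_nonneg _) hδ.le
  refine (ContinuousLinearMap.le_opNorm _ _).trans ?_
  rw [he, mul_one]
  exact BoundedContinuousFunction.norm_coe_le_norm _ _

/-- every multiplier has a character value modulo `A β` -/
theorem exists_value (he : ‖e‖ = 1) (h0 : ∀ t, β u0 t = e)
    (hkill : ∀ ξ₁ ξ₂ : X → H, Approx β ξ₁ → Approx β ξ₂ → ∀ δ > 0,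
      ∃ t, ‖ξ₁ t - ⟪e, ξ₁ t⟫_ℂ • e‖ ≤ δ ∧ ‖ξ₂ t - ⟪e, ξ₂ t⟫_ℂ • e‖ ≤ δ)
    (x : 𝓜(ℂ, A β)) : ∃ l : ℂ, ∀ (b c : 𝓜(ℂ, A β)) (a : A β),
      (x - l • (1 : 𝓜(ℂ, A β))) * b + (star x - (starRingEnd ℂ) l • (1 : 𝓜(ℂ, A β))) * c - 1 ≠
        (a : 𝓜(ℂ, A β)) := by
  have hk : ∀ n : ℕ, ∃ t : X,
      ‖vec β u0 e n t x - fn β u0 e n t x • e‖ ≤ 1 / ((n : ℝ) + 1) ∧
      ‖vec β u0 e n t (star x) - fn β u0 e n t (star x) • e‖ ≤ 1 / ((n : ℝ) + 1) := by
    intro n
    exact hkill (fun t => vec β u0 e n t x) (fun t => vec β u0 e n t (star x))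
      (approx_A _ n e) (approx_A _ n e) _ (by positivity)
  choose t ht1 ht2 using hk
  set f : ℕ → 𝓜(ℂ, A β) → ℂ := fun n y => fn β u0 e n (t n) y with hf
  have hb : Bornology.IsBounded (Metric.closedBall (0 : ℂ) ‖x.fst‖) := Metric.isBounded_closedBall
  obtain ⟨l, _, φ, hφ, hl⟩ := tendsto_subseq_of_bounded hb (x := fun n => f n x) (fun n => by
    rw [mem_closedBall_zero_iff]
    exact norm_fn he h0 n (t n) x)
  refine ⟨l, fun b c a heq => ?_⟩
  have hinv : Tendsto (fun n : ℕ => 1 / ((n : ℝ) + 1)) atTop (𝓝 0) :=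
    tendsto_one_div_add_atTop_nhds_zero_nat
  -- the three errors
  have e1 : Tendsto (fun n => f n (x * b) - f n x * f n b) atTop (𝓝 0) := by
    rw [tendsto_zero_iff_norm_tendsto_zero]
    refine squeeze_zero (g := fun n : ℕ => 1 / ((n : ℝ) + 1) * ‖b.fst‖)
      (fun n => norm_nonneg _) (fun n => fn_mul he h0 n (t n) x b (ht2 n)) ?_
    have := hinv.mul_const ‖b.fst‖
    rwa [zero_mul] at this
  have e2 : Tendsto (fun n => f n (star x * c) - f n (star x) * f n c) atTop (𝓝 0) := by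
    rw [tendsto_zero_iff_norm_tendsto_zero]
    refine squeeze_zero (g := fun n : ℕ => 1 / ((n : ℝ) + 1) * ‖c.fst‖)
      (fun n => norm_nonneg _) (fun n => fn_mul he h0 n (t n) (star x) c
      (δ := 1 / ((n : ℝ) + 1)) (by rw [star_star]; exact ht1 n)) ?_
    have := hinv.mul_const ‖c.fst‖
    rwa [zero_mul] at this
  have e3 : Tendsto (fun n => f n (a : 𝓜(ℂ, A β))) atTop (𝓝 0) := by
    rw [tendsto_zero_iff_norm_tendsto_zero, Metric.tendsto_atTop]
    intro ε hε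
    obtain ⟨N, hN⟩ := fn_coe (u0 := u0) he a (half_pos hε)
    refine ⟨N, fun n hn => ?_⟩
    rw [Real.dist_eq, sub_zero, abs_norm]
    have h1 := hN n hn (t n)
    have h2 := norm_p he h0 n
    have h3 : ε / 2 * ‖g β n 1 u0 u0‖ ≤ ε / 2 * 1 := by gcongr
    linarith
  have e4 : Tendsto (fun n => (f (φ n) x - l) * f (φ n) b) atTop (𝓝 0) := by
    have h1 : Tendsto (fun n => f (φ n) x - l) atTop (𝓝 0) := by
      have := hl.sub_const l
      rwa [sub_self] at this
    refine h1.zero_mul_isBoundedUnder_le ⟨‖b.fst‖, ?_⟩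
    rw [Filter.eventually_map]
    exact Eventually.of_forall fun n => norm_fn he h0 _ _ b
  have e5 : Tendsto (fun n => (f (φ n) (star x) - (starRingEnd ℂ) l) * f (φ n) c) atTop (𝓝 0) := by
    have h1 : Tendsto (fun n => f (φ n) (star x) - (starRingEnd ℂ) l) atTop (𝓝 0) := by
      have h2 : Tendsto (fun n => (starRingEnd ℂ) (f (φ n) x)) atTop (𝓝 ((starRingEnd ℂ) l)) :=
        (Complex.continuous_conj.tendsto l).comp hl
      have h3 := h2.sub_const ((starRingEnd ℂ) l)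
      rw [sub_self] at h3
      refine h3.congr fun n => ?_
      rw [hf]
      simp only
      rw [fn_star he h0]
    refine h1.zero_mul_isBoundedUnder_le ⟨‖c.fst‖, ?_⟩
    rw [Filter.eventually_map]
    exact Eventually.of_forall fun n => norm_fn he h0 _ _ c
  have h1 : ∀ n, (1 : ℂ) = (f n (x * b) - f n x * f n b) + (f n (star x * c) - f n (star x) * f n c)
      - f n (a : 𝓜(ℂ, A β)) + (f n x - l) * f n b + (f n (star x) - (starRingEnd ℂ) l) * f n c := by
    intro n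
    have hfa : ∀ y z, f n (y + z) = f n y + f n z := fun y z => by
      simp only [hf, fn, vec_add, inner_add_right]
    have hfs : ∀ y z, f n (y - z) = f n y - f n z := fun y z => by
      simp only [hf, fn, vec_sub, inner_sub_right]
    have hfc : ∀ (r : ℂ) y, f n (r • y) = r * f n y := fun r y => by
      simp only [hf, fn, vec_smul, inner_smul_right]
    have hf1 : f n 1 = 1 := by
      simp only [hf, fn]
      rw [vec_one n (t n) he h0, inner_self_eq_norm_sq_to_K, he]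
      simp
    have h2 := congrArg (f n) heq
    rw [sub_mul, sub_mul, smul_mul_assoc, smul_mul_assoc, one_mul, one_mul, hfs, hfa, hfs, hfs,
      hfc, hfc, hf1] at h2
    linear_combination (-1 : ℂ) * h2
  have h2 : Tendsto (fun n => (f (φ n) (x * b) - f (φ n) x * f (φ n) b) +
      (f (φ n) (star x * c) - f (φ n) (star x) * f (φ n) c)
      - f (φ n) (a : 𝓜(ℂ, A β)) + (f (φ n) x - l) * f (φ n) b +
      (f (φ n) (star x) - (starRingEnd ℂ) l) * f (φ n) c) atTop (𝓝 (0 + 0 - 0 + 0 + 0)) :=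
    ((((e1.comp hφ.tendsto_atTop).add (e2.comp hφ.tendsto_atTop)).sub
      (e3.comp hφ.tendsto_atTop)).add e4).add e5
  have h3 : Tendsto (fun _ : ℕ => (1 : ℂ)) atTop (𝓝 (0 + 0 - 0 + 0 + 0)) :=
    h2.congr fun n => (h1 (φ n)).symm
  have h4 := tendsto_nhds_unique h3 tendsto_const_nhds
  simp at h4

end Pool.Agent.Y852.AC
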