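import Mathlib

/-!
# Matrices have no character values

In the algebra of `k × k` matrices, `k ≥ 2`, the shift matrix `J` has the following property: for
every complex number `l` there are `b`, `c` with `(J - l) b + (J* - conj l) c = 1`.
-/

set_option autoImplicit false

open Matrix

namespace Pool.Agent.Y852.AC

/-- the nilpotent shift matrix -/
def J (k : ℕ) : Matrix (Fin k) (Fin k) ℂ := fun i j => if (j : ℕ) = i + 1 then 1 else 0

lemma J_pow (k m : ℕ) (i j : Fin k) : (J k ^ m) i j = if (j : ℕ) = i + m then 1 else 0 := by
  induction m generalizing i j with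
  | zero =>
    rw [pow_zero, Matrix.one_apply]
    by_cases h : i = j
    · subst h; simp
    · rw [if_neg h, if_neg]
      intro h2
      apply h
      exact Fin.ext (by omega)
  | succ m ih =>
    rw [pow_succ, Matrix.mul_apply]
    simp only [ih]
    by_cases h : (j : ℕ) = i + (m + 1)
    · rw [if_pos h]
      have hlt : (i : ℕ) + m < k := by have := j.2; omega
      rw [Finset.sum_eq_single (⟨i + m, hlt⟩ : Fin k)]
      · simp only [J, if_true, one_mul]
        rw [if_pos (by omega)]
      · intro b _ hb
        rw [if_neg, zero_mul]
        intro hb2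
        apply hb
        exact Fin.ext hb2
      · intro hn
        exact absurd (Finset.mem_univ _) hn
    · rw [if_neg h]
      apply Finset.sum_eq_zero
      intro b _
      by_cases hb : (b : ℕ) = i + m
      · rw [if_pos hb, one_mul, J, if_neg]
        omega
      · rw [if_neg hb, zero_mul]

lemma J_nilpotent (k : ℕ) : IsNilpotent (J k) := by
  refine ⟨k, ?_⟩
  ext i j
  rw [J_pow, Matrix.zero_apply, if_neg]
  have := j.2
  omega

lemma exists_char {k : ℕ} (hk : 2 ≤ k) (l : ℂ) : ∃ b c : Matrix (Fin k) (Fin k) ℂ,
    (J k - algebraMap ℂ _ l) * b + (star (J k) - algebraMap ℂ _ ((starRingEnd ℂ) l)) * c = 1 := by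
  rcases eq_or_ne l 0 with rfl | hl
  · -- `1 - J J* = e` is the last diagonal matrix unit and `J* J e = e`
    refine ⟨star (J k), J k * (1 - J k * star (J k)), ?_⟩
    rw [map_zero, map_zero, map_zero, sub_zero, sub_zero]
    have hJJ : ∀ i j : Fin k, (J k * star (J k)) i j =
        if i = j ∧ (i : ℕ) + 1 < k then 1 else 0 := by
      intro i j
      rw [Matrix.mul_apply]
      have hs : ∀ a : Fin k, (star (J k)) a j = if (a : ℕ) = j + 1 then 1 else 0 := by
        intro a
        rw [Matrix.star_apply, J]
        split_ifs <;> simp
      simp only [hs]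
      by_cases h : i = j ∧ (i : ℕ) + 1 < k
      · rw [if_pos h]
        obtain ⟨rfl, h2⟩ := h
        rw [Finset.sum_eq_single (⟨i + 1, h2⟩ : Fin k)]
        · simp [J]
        · intro b _ hb
          rw [J, if_neg, zero_mul]
          intro hb2
          apply hb
          exact Fin.ext hb2
        · intro hn
          exact absurd (Finset.mem_univ _) hn
      · rw [if_neg h]
        apply Finset.sum_eq_zero
        intro b _
        rw [J]
        by_cases h1 : (b : ℕ) = i + 1
        · rw [if_pos h1, one_mul, if_neg]
          intro h2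
          apply h
          refine ⟨Fin.ext (by omega), ?_⟩
          have := b.2
          omega
        · rw [if_neg h1, zero_mul]
    have hJs : ∀ i j : Fin k, (star (J k) * J k) i j =
        if i = j ∧ 1 ≤ (i : ℕ) then 1 else 0 := by
      intro i j
      rw [Matrix.mul_apply]
      have hs : ∀ a : Fin k, (star (J k)) i a = if (i : ℕ) = a + 1 then 1 else 0 := by
        intro a
        rw [Matrix.star_apply, J]
        split_ifs <;> simp
      simp only [hs]
      by_cases h : i = j ∧ 1 ≤ (i : ℕ)
      · rw [if_pos h]
        obtain ⟨rfl, h2⟩ := h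
        rw [Finset.sum_eq_single (⟨i - 1, by omega⟩ : Fin k)]
        · simp only [J]
          rw [if_pos (by omega), one_mul]
        · intro b _ hb
          rw [if_neg, zero_mul]
          intro hb2
          apply hb
          apply Fin.ext
          show (b : ℕ) = i - 1
          omega
        · intro hn
          exact absurd (Finset.mem_univ _) hn
      · rw [if_neg h]
        apply Finset.sum_eq_zero
        intro b _
        by_cases h1 : (i : ℕ) = b + 1
        · rw [if_pos h1, one_mul, J, if_neg]
          intro h2
          apply h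
          exact ⟨Fin.ext (by omega), by omega⟩
        · rw [if_neg h1, zero_mul]
    rw [← mul_assoc]
    ext i j
    rw [Matrix.add_apply, hJJ, Matrix.mul_apply]
    simp only [hJs, Matrix.sub_apply, hJJ, Matrix.one_apply]
    rw [Finset.sum_eq_single i]
    · by_cases hij : i = j
      · subst hij
        by_cases h : (i : ℕ) + 1 < k
        · simp [h]
        · have h1 : 1 ≤ (i : ℕ) := by omega
          simp [h, h1]
      · simp [hij]
    · intro b _ hb
      rw [if_neg (fun h => hb h.1.symm), zero_mul]
    · intro hn
      exact absurd (Finset.mem_univ _) hn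
  · have hu : IsUnit (J k - algebraMap ℂ (Matrix (Fin k) (Fin k) ℂ) l) := by
      have h1 : IsUnit (algebraMap ℂ (Matrix (Fin k) (Fin k) ℂ) l) := (IsUnit.mk0 l hl).map _
      have hc : Commute (J k) (-(algebraMap ℂ (Matrix (Fin k) (Fin k) ℂ) l)) :=
        Commute.neg_right (Algebra.commutes l (J k)).symm
      have h2 := IsNilpotent.isUnit_add_left_of_commute (J_nilpotent k) h1.neg hc
      rwa [neg_add_eq_sub] at h2
    obtain ⟨u, hu⟩ := hu
    refine ⟨((u⁻¹ : (Matrix (Fin k) (Fin k) ℂ)ˣ) : Matrix (Fin k) (Fin k) ℂ), 0, ?_⟩
    rw [← hu, Units.mul_inv, mul_zero, add_zero]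

end Pool.Agent.Y852.AC
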